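import Mathlib

set_option autoImplicit false

open Set Filter Topology

/-!
# Series for which countably many points have countably many representations

For `0 < ρ < 1/4` the series with the terms `ρ^k` and `ρ^k - ρ^(k+1)`, `k = 0, 1, 2, …`, has a
nonempty countable level set `L_ω`: the points with exactly countably many representations are
infinitely many but only countably many. So the answer to Q2 is negative.

Proof. Let `b k`, `a k` be the digits of `ρ^k`, `ρ^k - ρ^(k+1)`. The sum is `∑ g k ρ^k` with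
`g k = b k + a k - a (k-1)`, and `g` is determined by the sum. If `g k = -1` or `g k = 2` then `a k`
is determined; if `g k = 0` or `1` one can keep `a k = a (k-1)`; the change `1 → 0` is possible
for `g k = 0`, the change `0 → 1` for `g k = 1`. Hence, if `g` is not eventually constant with the
value `0` or `1`, the closed set of representations has no isolated points as soon as it is
infinite, and is uncountable.
-/

namespace Pool.Agent.Results.MP_c42e77_an.CountableOmegaLevel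

/-- The subsum `f(ε) = ∑ ε_n x_n`. -/
noncomputable def subsum (x : ℕ → ℝ) (ε : ℕ → Bool) : ℝ := ∑' n, if ε n = true then x n else 0

/-- The cardinality function `F_x(t) = card f⁻¹(t)`. -/
noncomputable def cardFun (x : ℕ → ℝ) (t : ℝ) : Cardinal :=
  Cardinal.mk {ε : ℕ → Bool // subsum x ε = t}

/-- The level set `L_κ(x) = {t : F_x(t) = κ}`. -/
def levelSet (x : ℕ → ℝ) (κ : Cardinal) : Set ℝ := {t | cardFun x t = κ}

/-- The series with the terms `ρ^k` (at the even places `2 k`) and `ρ^k - ρ^(k+1)` (at the odd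
places `2 k + 1`). -/
noncomputable def ser (ρ : ℝ) (n : ℕ) : ℝ :=
  if n % 2 = 0 then ρ ^ (n / 2) else ρ ^ (n / 2) - ρ ^ (n / 2 + 1)

/-- a digit as an integer -/
def dg (c : Bool) : ℤ := if c = true then 1 else 0

lemma dg_cases (c : Bool) : dg c = 0 ∨ dg c = 1 := by cases c <;> simp [dg]

lemma dg_inj {c d : Bool} (h : dg c = dg d) : c = d := by
  cases c <;> cases d <;> simp_all [dg]

/-- the previous odd digit -/
def pre (ε : ℕ → Bool) (k : ℕ) : ℤ := if k = 0 then 0 else dg (ε (2 * k - 1))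

/-- the coefficients `g k = b k + a k - a (k-1)` -/
def co (ε : ℕ → Bool) (k : ℕ) : ℤ := dg (ε (2 * k)) + dg (ε (2 * k + 1)) - pre ε k

lemma pre_cases (ε : ℕ → Bool) (k : ℕ) : pre ε k = 0 ∨ pre ε k = 1 := by
  unfold pre
  split_ifs
  · exact Or.inl rfl
  · exact dg_cases _

lemma co_succ (ε : ℕ → Bool) (k : ℕ) :
    co ε (k + 1) = dg (ε (2 * (k + 1))) + dg (ε (2 * (k + 1) + 1)) - dg (ε (2 * k + 1)) := by
  unfold co pre
  rw [if_neg (by omega), show 2 * (k + 1) - 1 = 2 * k + 1 by omega]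

lemma co_zero (ε : ℕ → Bool) : co ε 0 = dg (ε 0) + dg (ε 1) := by
  simp [co, pre]

lemma co_range (ε : ℕ → Bool) (k : ℕ) : co ε k = -1 ∨ co ε k = 0 ∨ co ε k = 1 ∨ co ε k = 2 := by
  unfold co
  rcases dg_cases (ε (2 * k)) with h | h <;> rcases dg_cases (ε (2 * k + 1)) with h' | h' <;>
    rcases pre_cases ε k with h'' | h'' <;> rw [h, h', h''] <;> norm_num

lemma ser_pos {ρ : ℝ} (h0 : 0 < ρ) (h1 : ρ < 1) (n : ℕ) : 0 < ser ρ n := by
  unfold ser
  split_ifs
  · positivity
  · rw [pow_succ]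
    have : 0 < ρ ^ (n / 2) := by positivity
    nlinarith

lemma ser_even (ρ : ℝ) (k : ℕ) : ser ρ (2 * k) = ρ ^ k := by
  unfold ser
  rw [if_pos (by omega), show 2 * k / 2 = k by omega]

lemma ser_odd (ρ : ℝ) (k : ℕ) : ser ρ (2 * k + 1) = ρ ^ k - ρ ^ (k + 1) := by
  unfold ser
  rw [if_neg (by omega), show (2 * k + 1) / 2 = k by omega]

lemma ser_summable {ρ : ℝ} (h0 : 0 < ρ) (h1 : ρ < 1) : Summable (ser ρ) := by
  have hg := summable_geometric_of_lt_one h0.le h1
  refine (summable_nat_add_iff 0).1 ?_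
  simp only [add_zero]
  have he : Summable fun k => ser ρ (2 * k) := by simpa only [ser_even] using hg
  have ho : Summable fun k => ser ρ (2 * k + 1) := by
    simp only [ser_odd]
    exact hg.sub ((summable_nat_add_iff 1).2 hg)
  exact (HasSum.even_add_odd he.hasSum ho.hasSum).summable

lemma term_summable {ρ : ℝ} (h0 : 0 < ρ) (h1 : ρ < 1) (u : ℕ → ℤ) (hu : ∀ k, |u k| ≤ 3) :
    Summable fun k => (u k : ℝ) * ρ ^ k := by
  have hg := (summable_geometric_of_lt_one h0.le h1).mul_left 3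
  refine Summable.of_norm_bounded hg fun k => ?_
  rw [norm_mul, norm_pow, Real.norm_eq_abs, Real.norm_eq_abs, abs_of_pos h0]
  have : |(u k : ℝ)| ≤ 3 := by
    have := hu k
    exact_mod_cast this
  gcongr

lemma co_abs (ε : ℕ → Bool) (k : ℕ) : |co ε k| ≤ 3 := by
  rcases co_range ε k with h | h | h | h <;> rw [h] <;> norm_num

lemma dg_abs (c : Bool) : |dg c| ≤ 3 := by
  rcases dg_cases c with h | h <;> rw [h] <;> norm_num

lemma tsum_odd {ρ : ℝ} (h0 : 0 < ρ) (h1 : ρ < 1) (ε : ℕ → Bool) :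
    ∑' k, (pre ε k : ℝ) * ρ ^ k = ∑' k, (dg (ε (2 * k + 1)) : ℝ) * ρ ^ (k + 1) := by
  have hPs : Summable fun k => (pre ε k : ℝ) * ρ ^ k :=
    term_summable h0 h1 (fun k => pre ε k) fun k => by
      rcases pre_cases ε k with h | h <;> rw [h] <;> norm_num
  rw [hPs.tsum_eq_zero_add]
  have e0 : (pre ε 0 : ℝ) * ρ ^ 0 = 0 := by simp [pre]
  rw [e0, zero_add]
  refine tsum_congr fun k => ?_
  unfold pre
  rw [if_neg (by omega), show 2 * (k + 1) - 1 = 2 * k + 1 by omega]

/-- the subsum in terms of the coefficients -/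
lemma subsum_eq {ρ : ℝ} (h0 : 0 < ρ) (h1 : ρ < 1) (ε : ℕ → Bool) :
    subsum (ser ρ) ε = ∑' k, (co ε k : ℝ) * ρ ^ k := by
  have hAs : Summable fun k => (dg (ε (2 * k + 1)) : ℝ) * ρ ^ k :=
    term_summable h0 h1 (fun k => dg (ε (2 * k + 1))) fun k => dg_abs _
  have hBs : Summable fun k => (dg (ε (2 * k)) : ℝ) * ρ ^ k :=
    term_summable h0 h1 (fun k => dg (ε (2 * k))) fun k => dg_abs _
  have hPs : Summable fun k => (pre ε k : ℝ) * ρ ^ k :=
    term_summable h0 h1 (fun k => pre ε k) fun k => by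
      rcases pre_cases ε k with h | h <;> rw [h] <;> norm_num
  have hA1s : Summable fun k => (dg (ε (2 * k + 1)) : ℝ) * ρ ^ (k + 1) := by
    refine (hAs.mul_right ρ).congr fun k => ?_
    ring
  have hterm : ∀ n, (if ε n = true then ser ρ n else 0) = (dg (ε n) : ℝ) * ser ρ n := by
    intro n
    unfold dg
    split_ifs <;> simp
  have he : Summable fun k => (dg (ε (2 * k)) : ℝ) * ser ρ (2 * k) := by
    simpa only [ser_even] using hBs
  have ho : Summable fun k => (dg (ε (2 * k + 1)) : ℝ) * ser ρ (2 * k + 1) := by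
    simp only [ser_odd, mul_sub]
    exact hAs.sub hA1s
  have s1 : subsum (ser ρ) ε = ∑' n, (dg (ε n) : ℝ) * ser ρ n := tsum_congr hterm
  have s2 : ∑' n, (dg (ε n) : ℝ) * ser ρ n = ∑' k, (dg (ε (2 * k)) : ℝ) * ser ρ (2 * k)
      + ∑' k, (dg (ε (2 * k + 1)) : ℝ) * ser ρ (2 * k + 1) :=
    (tsum_even_add_odd (f := fun n => (dg (ε n) : ℝ) * ser ρ n) he ho).symm
  have s3 : ∑' k, (dg (ε (2 * k)) : ℝ) * ser ρ (2 * k) = ∑' k, (dg (ε (2 * k)) : ℝ) * ρ ^ k :=
    tsum_congr fun k => by rw [ser_even]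
  have s4 : ∑' k, (dg (ε (2 * k + 1)) : ℝ) * ser ρ (2 * k + 1)
      = ∑' k, (dg (ε (2 * k + 1)) : ℝ) * ρ ^ k - ∑' k, (dg (ε (2 * k + 1)) : ℝ) * ρ ^ (k + 1) := by
    rw [← hAs.tsum_sub hA1s]
    exact tsum_congr fun k => by rw [ser_odd]; ring
  have s5 : ∑' k, (co ε k : ℝ) * ρ ^ k = ∑' k, (dg (ε (2 * k)) : ℝ) * ρ ^ k
      + ∑' k, (dg (ε (2 * k + 1)) : ℝ) * ρ ^ k - ∑' k, (pre ε k : ℝ) * ρ ^ k := by
    rw [← hBs.tsum_add hAs, ← (hBs.add hAs).tsum_sub hPs]
    refine tsum_congr fun k => ?_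
    unfold co
    push_cast
    ring
  rw [s1, s2, s3, s4, s5, tsum_odd h0 h1]
  ring

/-- uniqueness of the coefficients -/
lemma unique_co {ρ : ℝ} (h0 : 0 < ρ) (h1 : ρ < 1 / 4) (u : ℕ → ℤ) (hu : ∀ k, |u k| ≤ 3)
    (hs : ∑' k, (u k : ℝ) * ρ ^ k = 0) : ∀ k, u k = 0 := by
  have h1' : ρ < 1 := by linarith
  by_contra hcon
  push Not at hcon
  have hex : ∃ k, u k ≠ 0 := hcon
  classical
  set j := Nat.find hex with hj
  have hj1 : u j ≠ 0 := Nat.find_spec hex
  have hj2 : ∀ i < j, u i = 0 := fun i hi => by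
    by_contra h
    exact Nat.find_min hex hi h
  have hsum := term_summable h0 h1' u hu
  have e1 := hsum.sum_add_tsum_nat_add (j + 1)
  rw [hs, Finset.sum_range_succ, Finset.sum_eq_zero (fun i hi => by
    rw [hj2 i (Finset.mem_range.1 hi)]; simp), zero_add] at e1
  have hb : |∑' i, (u (i + (j + 1)) : ℝ) * ρ ^ (i + (j + 1))| ≤ 3 * ρ ^ (j + 1) / (1 - ρ) := by
    have hg := summable_geometric_of_lt_one h0.le h1'
    have h2 : ∀ i, ‖(u (i + (j + 1)) : ℝ) * ρ ^ (i + (j + 1))‖ ≤ 3 * ρ ^ (j + 1) * ρ ^ i := by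
      intro i
      rw [norm_mul, norm_pow, Real.norm_eq_abs, Real.norm_eq_abs, abs_of_pos h0, pow_add]
      have : |(u (i + (j + 1)) : ℝ)| ≤ 3 := by
        have := hu (i + (j + 1))
        exact_mod_cast this
      have h3 : 0 < ρ ^ i * ρ ^ (j + 1) := by positivity
      nlinarith
    have h3 := tsum_of_norm_bounded ((hg.mul_left (3 * ρ ^ (j + 1))).hasSum) h2
    rw [tsum_mul_left, tsum_geometric_of_lt_one h0.le h1'] at h3
    rw [div_eq_mul_inv]
    exact h3
  have h4 : (1 : ℝ) ≤ |(u j : ℝ)| := by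
    have : (1 : ℤ) ≤ |u j| := Int.one_le_abs hj1
    exact_mod_cast this
  have h5 : |(u j : ℝ) * ρ ^ j| ≤ 3 * ρ ^ (j + 1) / (1 - ρ) := by
    have : (u j : ℝ) * ρ ^ j = -∑' i, (u (i + (j + 1)) : ℝ) * ρ ^ (i + (j + 1)) := by linarith
    rw [this, abs_neg]
    exact hb
  rw [abs_mul, abs_of_pos (by positivity : (0 : ℝ) < ρ ^ j), le_div_iff₀ (by linarith),
    pow_succ] at h5
  have hp : (0 : ℝ) < ρ ^ j := by positivity
  have h6 : ρ ^ j * (1 - ρ) ≤ |(u j : ℝ)| * ρ ^ j * (1 - ρ) := by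
    have h7 : 0 < ρ ^ j * (1 - ρ) := mul_pos hp (by linarith)
    nlinarith
  have h8 : 0 < ρ ^ j * (1 - 4 * ρ) := mul_pos hp (by linarith)
  nlinarith

lemma fibre_eq {ρ : ℝ} (h0 : 0 < ρ) (h1 : ρ < 1 / 4) (ε ε' : ℕ → Bool) :
    subsum (ser ρ) ε = subsum (ser ρ) ε' ↔ ∀ k, co ε k = co ε' k := by
  have h1' : ρ < 1 := by linarith
  rw [subsum_eq h0 h1', subsum_eq h0 h1']
  constructor
  · intro h k
    have hs := (term_summable h0 h1' _ (co_abs ε)).tsum_sub (term_summable h0 h1' _ (co_abs ε'))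
    have h2 := unique_co h0 h1 (fun k => co ε k - co ε' k) (fun k => by
      rcases co_range ε k with h | h | h | h <;> rcases co_range ε' k with h' | h' | h' | h' <;>
        rw [h, h'] <;> norm_num) (by
      have e : ∀ k, ((co ε k - co ε' k : ℤ) : ℝ) * ρ ^ k
          = (co ε k : ℝ) * ρ ^ k - (co ε' k : ℝ) * ρ ^ k := fun k => by push_cast; ring
      simp only [e]
      rw [hs, h, sub_self]) k
    simpa [sub_eq_zero] using h2
  · intro h
    exact tsum_congr fun k => by rw [h k]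

/-- the digit sequences with the coefficients `G` -/
def Fb (G : ℕ → ℤ) : Set (ℕ → Bool) := {ε | ∀ k, co ε k = G k}

lemma fb_closed (G : ℕ → ℤ) : IsClosed (Fb G) := by
  have : Fb G = ⋂ k, {ε | co ε k = G k} := by
    ext ε
    simp [Fb]
  rw [this]
  refine isClosed_iInter fun k => ?_
  refine isClosed_eq ?_ continuous_const
  have hd : ∀ n, Continuous fun ε : ℕ → Bool => dg (ε n) := fun n =>
    (continuous_of_discreteTopology (f := dg)).comp (continuous_apply n)
  unfold co pre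
  split_ifs
  · exact ((hd _).add (hd _)).sub continuous_const
  · exact ((hd _).add (hd _)).sub (hd _)

/-- a digit sequence up to the place `2 k + 1` continued with another one -/
def spl (k : ℕ) (ε ε' : ℕ → Bool) (n : ℕ) : Bool := if n ≤ 2 * k + 1 then ε n else ε' n

lemma spl_mem {G : ℕ → ℤ} {ε ε' : ℕ → Bool} {k : ℕ} (h : ∀ j ≤ k, co ε j = G j)
    (h' : ∀ j, k < j → co ε' j = G j) (hk : ε (2 * k + 1) = ε' (2 * k + 1)) :
    spl k ε ε' ∈ Fb G := by
  intro j
  rcases le_or_gt j k with hj | hj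
  · rw [← h j hj]
    have e1 : spl k ε ε' (2 * j) = ε (2 * j) := if_pos (by omega)
    have e2 : spl k ε ε' (2 * j + 1) = ε (2 * j + 1) := if_pos (by omega)
    have e3 : spl k ε ε' (2 * j - 1) = ε (2 * j - 1) := if_pos (by omega)
    unfold co pre
    rw [e1, e2, e3]
  · rw [← h' j hj]
    have e1 : spl k ε ε' (2 * j) = ε' (2 * j) := if_neg (by omega)
    have e2 : spl k ε ε' (2 * j + 1) = ε' (2 * j + 1) := if_neg (by omega)
    have e3 : spl k ε ε' (2 * j - 1) = ε' (2 * j - 1) := by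
      rcases Nat.lt_or_ge (k + 1) j with h2 | h2
      · exact if_neg (by omega)
      · have : 2 * j - 1 = 2 * k + 1 := by omega
        rw [this]
        unfold spl
        rw [if_pos le_rfl, hk]
    unfold co pre
    rw [e1, e2, e3]

/-- a closed set of digit sequences without isolated points is empty or uncountable -/
lemma perfect_unc {C : Set (ℕ → Bool)} (hC : IsClosed C) (hne : C.Nonempty)
    (h : ∀ ε ∈ C, ∀ N : ℕ, ∃ ε' ∈ C, ε' ≠ ε ∧ ∀ n < N, ε' n = ε n) : ¬ C.Countable := by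
  intro hcount
  have hp : Perfect C := by
    refine ⟨hC, fun ε hε => ?_⟩
    rw [accPt_iff_nhds]
    intro U hU
    obtain ⟨s, ⟨x, n, rfl⟩, hxs, hs⟩ :=
      (PiNat.isTopologicalBasis_cylinders (fun _ : ℕ => Bool)).mem_nhds_iff.1 hU
    obtain ⟨ε', h1, h2, h3⟩ := h ε hε n
    refine ⟨ε', ⟨hs ?_, h1⟩, h2⟩
    rw [PiNat.mem_cylinder_iff] at hxs ⊢
    intro i hi
    rw [h3 i hi]
    exact hxs i hi
  let _ := TopologicalSpace.upgradeIsCompletelyMetrizable (ℕ → Bool)
  obtain ⟨f, hf1, -, hf3⟩ := hp.exists_nat_bool_injection hne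
  have h1 : (range f).Countable := hcount.mono hf1
  have h2 : Countable (ℕ → Bool) := by
    rw [← Set.countable_univ_iff]
    exact Set.countable_of_injective_of_countable_image hf3.injOn (by rwa [Set.image_univ])
  have h3 := Cardinal.mk_le_aleph0_iff.2 h2
  rw [Cardinal.mk_arrow] at h3
  simp only [Cardinal.lift_uzero, Cardinal.mk_bool, Cardinal.mk_nat] at h3
  exact absurd h3 (not_le.2 (Cardinal.cantor _))

lemma neg_one {ε : ℕ → Bool} {k : ℕ} (h : co ε k = -1) : ε (2 * k + 1) = false := by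
  unfold co at h
  have h1 := dg_cases (ε (2 * k))
  have h2 := dg_cases (ε (2 * k + 1))
  have h3 := pre_cases ε k
  have h4 : dg (ε (2 * k + 1)) = 0 := by omega
  exact dg_inj h4

lemma two {ε : ℕ → Bool} {k : ℕ} (h : co ε k = 2) : ε (2 * k + 1) = true := by
  unfold co at h
  have h1 := dg_cases (ε (2 * k))
  have h2 := dg_cases (ε (2 * k + 1))
  have h3 := pre_cases ε k
  have h4 : dg (ε (2 * k + 1)) = 1 := by omega
  exact dg_inj h4

/-- infinitely many forced digits -/
lemma case_forced {G : ℕ → ℤ} (hinf : (Fb G).Infinite)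
    (hG : ∀ K, ∃ k, K ≤ k ∧ (G k = -1 ∨ G k = 2)) : ¬ (Fb G).Countable := by
  have hforce : ∀ k, (G k = -1 ∨ G k = 2) → ∀ u ∈ Fb G, ∀ v ∈ Fb G,
      u (2 * k + 1) = v (2 * k + 1) := by
    intro k hk u hu v hv
    rcases hk with hk | hk
    · rw [neg_one ((hu k).trans hk), neg_one ((hv k).trans hk)]
    · rw [two ((hu k).trans hk), two ((hv k).trans hk)]
  refine perfect_unc (fb_closed G) hinf.nonempty fun ε hε N => ?_
  obtain ⟨k, hk, hGk⟩ := hG N
  -- two different elements which agree up to `2 k + 1`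
  obtain ⟨u, hu, v, hv, huv, hag⟩ : ∃ u ∈ Fb G, ∃ v ∈ Fb G, u ≠ v ∧
      ∀ n ≤ 2 * k + 1, u n = v n := by
    have hfin : (Set.univ : Set (Fin (2 * k + 2) → Bool)).Finite := Set.finite_univ
    obtain ⟨u, hu, v, hv, huv, h⟩ := hinf.exists_ne_map_eq_of_mapsTo
      (f := fun (ε : ℕ → Bool) (i : Fin (2 * k + 2)) => ε i) (fun _ _ => Set.mem_univ _) hfin
    refine ⟨u, hu, v, hv, huv, fun n hn => ?_⟩
    exact congrFun h ⟨n, by omega⟩
  have key : ∀ w ∈ Fb G, (∃ n, 2 * k + 1 < n ∧ w n ≠ ε n) →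
      ∃ ε' ∈ Fb G, ε' ≠ ε ∧ ∀ n < N, ε' n = ε n := by
    rintro w hw ⟨n, hn, hwn⟩
    refine ⟨spl k ε w, spl_mem (fun j _ => hε j) (fun j _ => hw j) (hforce k hGk ε hε w hw),
      fun h => hwn ?_, fun i hi => if_pos (by omega)⟩
    rw [← congrFun h n]
    exact (if_neg (by omega)).symm
  obtain ⟨n, hn⟩ : ∃ n, u n ≠ v n := by
    by_contra hcon
    push Not at hcon
    exact huv (funext hcon)
  have hn' : 2 * k + 1 < n := by
    by_contra hc
    exact hn (hag n (by omega))
  by_cases h1 : u n = ε n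
  · exact key v hv ⟨n, hn', fun h => hn (h1.trans h.symm)⟩
  · exact key u hu ⟨n, hn', h1⟩

/-- the digits with the constant odd digit `c` -/
def st (G : ℕ → ℤ) (c : Bool) (n : ℕ) : Bool := if n % 2 = 1 then c else decide (G (n / 2) = 1)

lemma st_odd (G : ℕ → ℤ) (c : Bool) (k : ℕ) : st G c (2 * k + 1) = c := if_pos (by omega)

lemma st_even (G : ℕ → ℤ) (c : Bool) (k : ℕ) : st G c (2 * k) = decide (G k = 1) := by
  unfold st
  rw [if_neg (by omega), show 2 * k / 2 = k by omega]

lemma dg_dec {z : ℤ} (h : z = 0 ∨ z = 1) : dg (decide (z = 1)) = z := by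
  rcases h with h | h <;> simp [dg, h]

lemma co_st {G : ℕ → ℤ} {c : Bool} {j : ℕ} (hj : 0 < j) (h : G j = 0 ∨ G j = 1) :
    co (st G c) j = G j := by
  obtain ⟨i, rfl⟩ : ∃ i, j = i + 1 := ⟨j - 1, by omega⟩
  rw [co_succ, st_odd, st_odd, st_even, dg_dec h]
  ring

/-- the odd digit is changed at the place `p` -/
def sw (G : ℕ → ℤ) (c : Bool) (p n : ℕ) : Bool :=
  if n < 2 * p then st G c n else if n = 2 * p then c else st G (!c) n

lemma co_sw {G : ℕ → ℤ} {c : Bool} {p j : ℕ} (hj : 0 < j) (hp : G p = dg (!c))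
    (h : G j = 0 ∨ G j = 1) : co (sw G c p) j = G j := by
  obtain ⟨i, rfl⟩ : ∃ i, j = i + 1 := ⟨j - 1, by omega⟩
  rcases lt_trichotomy (i + 1) p with h1 | h1 | h1
  · have e1 : sw G c p (2 * (i + 1)) = st G c (2 * (i + 1)) := if_pos (by omega)
    have e2 : sw G c p (2 * (i + 1) + 1) = st G c (2 * (i + 1) + 1) := if_pos (by omega)
    have e3 : sw G c p (2 * i + 1) = st G c (2 * i + 1) := if_pos (by omega)
    rw [co_succ, e1, e2, e3, ← co_succ, co_st hj h]
  · subst h1
    have e1 : sw G c (i + 1) (2 * (i + 1)) = c := by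
      unfold sw
      rw [if_neg (by omega), if_pos rfl]
    have e2 : sw G c (i + 1) (2 * (i + 1) + 1) = !c := by
      unfold sw
      rw [if_neg (by omega), if_neg (by omega), st_odd]
    have e3 : sw G c (i + 1) (2 * i + 1) = c := by
      unfold sw
      rw [if_pos (by omega), st_odd]
    rw [co_succ, e1, e2, e3, hp]
    ring
  · have e1 : sw G c p (2 * (i + 1)) = st G (!c) (2 * (i + 1)) := by
      unfold sw
      rw [if_neg (by omega), if_neg (by omega)]
    have e2 : sw G c p (2 * (i + 1) + 1) = st G (!c) (2 * (i + 1) + 1) := by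
      unfold sw
      rw [if_neg (by omega), if_neg (by omega)]
    have e3 : sw G c p (2 * i + 1) = st G (!c) (2 * i + 1) := by
      unfold sw
      rw [if_neg (by omega), if_neg (by omega)]
    rw [co_succ, e1, e2, e3, ← co_succ, co_st hj h]

/-- infinitely many coefficients `0` and `1` -/
lemma case_switch {G : ℕ → ℤ} {K : ℕ} (h01 : ∀ k, K ≤ k → G k = 0 ∨ G k = 1)
    (h0 : ∀ k, ∃ j, k ≤ j ∧ G j = 0) (h1 : ∀ k, ∃ j, k ≤ j ∧ G j = 1)
    (hne : (Fb G).Nonempty) : ¬ (Fb G).Countable := by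
  refine perfect_unc (fb_closed G) hne fun ε hε N => ?_
  set k := max K N with hk
  have hkK : K ≤ k := le_max_left _ _
  have hkN : N ≤ k := le_max_right _ _
  set c := ε (2 * k + 1) with hc
  obtain ⟨p, hp, hGp⟩ : ∃ p, k + 1 ≤ p ∧ G p = dg (!c) := by
    cases hcc : c
    · simpa [dg] using h1 (k + 1)
    · simpa [dg] using h0 (k + 1)
  have m1 : spl k ε (st G c) ∈ Fb G :=
    spl_mem (fun j _ => hε j) (fun j hj => co_st (by omega) (h01 j (by omega))) (by
      rw [st_odd])
  have m2 : spl k ε (sw G c p) ∈ Fb G :=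
    spl_mem (fun j _ => hε j) (fun j hj => co_sw (by omega) hGp (h01 j (by omega))) (by
      unfold sw
      rw [if_pos (by omega), st_odd])
  have n1 : spl k ε (st G c) (2 * p + 1) = c := by
    unfold spl
    rw [if_neg (by omega), st_odd]
  have n2 : spl k ε (sw G c p) (2 * p + 1) = !c := by
    unfold spl sw
    rw [if_neg (by omega), if_neg (by omega), if_neg (by omega), st_odd]
  by_cases h2 : spl k ε (st G c) = ε
  · refine ⟨_, m2, fun h3 => ?_, fun i hi => if_pos (by omega)⟩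
    rw [h3] at n2
    rw [h2] at n1
    rw [n1] at n2
    cases c <;> simp at n2
  · exact ⟨_, m1, h2, fun i hi => if_pos (by omega)⟩

/-- for a countable infinite set of digit sequences the coefficients are eventually constant -/
lemma eventually_const {G : ℕ → ℤ} (hinf : (Fb G).Infinite) (hc : (Fb G).Countable) :
    ∃ (K : ℕ) (z : ℤ), ∀ k, K ≤ k → G k = z := by
  obtain ⟨ε, hε⟩ := hinf.nonempty
  by_contra hcon
  push Not at hcon
  by_cases hF : ∀ K, ∃ k, K ≤ k ∧ (G k = -1 ∨ G k = 2)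
  · exact case_forced hinf hF hc
  · push Not at hF
    obtain ⟨K, hK⟩ := hF
    have h01 : ∀ k, K ≤ k → G k = 0 ∨ G k = 1 := by
      intro k hk
      have h1 := co_range ε k
      rw [hε k] at h1
      have h2 := hK k hk
      tauto
    refine case_switch h01 (fun k => ?_) (fun k => ?_) ⟨ε, hε⟩ hc
    · obtain ⟨j, hj, h2⟩ := hcon (max K k) 1
      have h3 := h01 j (by omega)
      exact ⟨j, by omega, by tauto⟩
    · obtain ⟨j, hj, h2⟩ := hcon (max K k) 0
      have h3 := h01 j (by omega)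
      exact ⟨j, by omega, by tauto⟩

/-- the sequences which agree with a given one from some place on are countable in number -/
lemma countable_tail {α : Type} [Countable α] (φ : ℕ → α) :
    {u : ℕ → α | ∃ K, ∀ k, K ≤ k → u k = φ k}.Countable := by
  refine (Set.countable_range fun (l : List α) (k : ℕ) => l.getD k (φ k)).mono ?_
  rintro u ⟨K, hK⟩
  refine ⟨List.ofFn fun i : Fin K => u i, funext fun k => ?_⟩
  change (List.ofFn fun i : Fin K => u i).getD k (φ k) = u k
  rcases Nat.lt_or_ge k K with h | h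
  · rw [List.getD_eq_getElem _ _ (by simpa using h)]
    simp
  · rw [List.getD_eq_default _ _ (by simpa using h), hK k h]

lemma mem_level {x : ℕ → ℝ} {t : ℝ} : t ∈ levelSet x Cardinal.aleph0 ↔
    {ε | subsum x ε = t}.Infinite ∧ {ε | subsum x ε = t}.Countable := by
  constructor
  · intro h
    have h' : Cardinal.mk {ε : ℕ → Bool // subsum x ε = t} = Cardinal.aleph0 := h
    exact ⟨Set.infinite_coe_iff.1 (Cardinal.infinite_iff.2 h'.ge),
      Set.countable_coe_iff.1 (Cardinal.mk_le_aleph0_iff.1 h'.le)⟩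
  · rintro ⟨h1, h2⟩
    have i1 : Infinite {ε : ℕ → Bool // subsum x ε = t} := Set.infinite_coe_iff.2 h1
    have i2 : Countable {ε : ℕ → Bool // subsum x ε = t} := Set.countable_coe_iff.2 h2
    exact Cardinal.mk_eq_aleph0 _

lemma fibre_fb {ρ : ℝ} (h0 : 0 < ρ) (h1 : ρ < 1 / 4) (ε : ℕ → Bool) :
    {ε' | subsum (ser ρ) ε' = subsum (ser ρ) ε} = Fb (co ε) := by
  ext ε'
  exact fibre_eq h0 h1 ε' ε

lemma level_countable {ρ : ℝ} (h0 : 0 < ρ) (h1 : ρ < 1 / 4) :
    (levelSet (ser ρ) Cardinal.aleph0).Countable := by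
  have hc : (⋃ z : ℤ, {u : ℕ → ℤ | ∃ K, ∀ k, K ≤ k → u k = z}).Countable :=
    Set.countable_iUnion fun z => countable_tail fun _ => z
  refine (hc.image fun u => ∑' k, (u k : ℝ) * ρ ^ k).mono ?_
  intro t ht
  obtain ⟨hi, hcn⟩ := mem_level.1 ht
  obtain ⟨ε, hε⟩ := hi.nonempty
  have hε' : subsum (ser ρ) ε = t := hε
  rw [← hε', fibre_fb h0 h1] at hi hcn
  obtain ⟨K, z, hK⟩ := eventually_const hi hcn
  refine ⟨co ε, Set.mem_iUnion.2 ⟨z, K, hK⟩, ?_⟩
  change ∑' k, (co ε k : ℝ) * ρ ^ k = t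
  rw [← subsum_eq h0 (by linarith), hε']

/-- the coefficients of `ρ ^ j` -/
def one (j k : ℕ) : ℤ := if k = j then 1 else 0

/-- a representation of `ρ ^ j` with `n` odd digits -/
def rep (j n m : ℕ) : Bool := decide ((m % 2 = 1 ∧ 2 * j < m ∧ m < 2 * (j + n)) ∨ m = 2 * (j + n))

lemma rep_mem (j n : ℕ) : rep j n ∈ Fb (one j) := by
  intro k
  simp only [co, pre, dg, rep, one, decide_eq_true_eq]
  split_ifs <;> omega

lemma fb_one_infinite (j : ℕ) : (Fb (one j)).Infinite := by
  refine Set.infinite_of_injective_forall_mem (f := fun n => rep j n) (fun n n' h => ?_)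
    (fun n => rep_mem j n)
  have h1 := congrFun h (2 * (j + n))
  simp only [rep, decide_eq_decide] at h1
  have h2 := h1.1 (Or.inr trivial)
  rcases h2 with ⟨h3, -⟩ | h3 <;> omega

lemma fb_one_countable (j : ℕ) : (Fb (one j)).Countable := by
  refine ((countable_tail fun _ : ℕ => false).union
    (countable_tail fun k : ℕ => decide (k % 2 = 1))).mono ?_
  intro ε hε
  have hco : ∀ i, j ≤ i → dg (ε (2 * (i + 1))) + dg (ε (2 * (i + 1) + 1)) = dg (ε (2 * i + 1)) := by
    intro i hi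
    have h := hε (i + 1)
    rw [co_succ] at h
    unfold one at h
    rw [if_neg (by omega)] at h
    omega
  by_cases hA : ∃ k, j ≤ k ∧ ε (2 * k + 1) = false
  · left
    obtain ⟨k, hk, hf⟩ := hA
    have hall : ∀ i, k ≤ i → ε (2 * i + 1) = false ∧ ε (2 * (i + 1)) = false := by
      intro i hi
      induction i, hi using Nat.le_induction with
      | base =>
        refine ⟨hf, ?_⟩
        have h := hco k hk
        have h1 := dg_cases (ε (2 * (k + 1)))
        have h2 := dg_cases (ε (2 * (k + 1) + 1))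
        have h3 : dg (ε (2 * k + 1)) = 0 := by rw [hf]; rfl
        exact dg_inj (show dg (ε (2 * (k + 1))) = 0 by omega)
      | succ i hi ih =>
        have h := hco i (by omega)
        have h1 := dg_cases (ε (2 * (i + 1)))
        have h2 := dg_cases (ε (2 * (i + 1) + 1))
        have h3 : dg (ε (2 * i + 1)) = 0 := by rw [ih.1]; rfl
        have h4 : ε (2 * (i + 1) + 1) = false :=
          dg_inj (show dg (ε (2 * (i + 1) + 1)) = 0 by omega)
        refine ⟨h4, ?_⟩
        have h := hco (i + 1) (by omega)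
        have h1 := dg_cases (ε (2 * (i + 1 + 1)))
        have h2 := dg_cases (ε (2 * (i + 1 + 1) + 1))
        have h5 : dg (ε (2 * (i + 1) + 1)) = 0 := by rw [h4]; rfl
        exact dg_inj (show dg (ε (2 * (i + 1 + 1))) = 0 by omega)
    refine ⟨2 * k + 1, fun m hm => ?_⟩
    rcases Nat.even_or_odd' m with ⟨i, rfl | rfl⟩
    · have := (hall (i - 1) (by omega)).2
      rwa [show i - 1 + 1 = i by omega] at this
    · exact (hall i (by omega)).1
  · right
    push Not at hA
    have hA' : ∀ k, j ≤ k → ε (2 * k + 1) = true := fun k hk => by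
      simpa using hA k hk
    refine ⟨2 * j + 1, fun m hm => ?_⟩
    rcases Nat.even_or_odd' m with ⟨i, rfl | rfl⟩
    · obtain ⟨l, rfl⟩ : ∃ l, i = l + 1 := ⟨i - 1, by omega⟩
      have h := hco l (by omega)
      rw [hA' (l + 1) (by omega), hA' l (by omega)] at h
      have h1 : dg (ε (2 * (l + 1))) = 0 := by omega
      rw [show decide (2 * (l + 1) % 2 = 1) = false by simp]
      exact dg_inj h1
    · rw [hA' i (by omega)]
      simp

lemma pow_mem {ρ : ℝ} (h0 : 0 < ρ) (h1 : ρ < 1 / 4) (j : ℕ) :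
    ρ ^ j ∈ levelSet (ser ρ) Cardinal.aleph0 := by
  have e : subsum (ser ρ) (rep j 0) = ρ ^ j := by
    rw [subsum_eq h0 (by linarith)]
    have h2 : ∀ k, (co (rep j 0) k : ℝ) * ρ ^ k = if k = j then ρ ^ j else 0 := by
      intro k
      rw [rep_mem j 0 k]
      unfold one
      split_ifs with h
      · rw [h]
        simp
      · simp
    simp only [h2, tsum_ite_eq]
  have h2 : co (rep j 0) = one j := funext fun k => rep_mem j 0 k
  rw [← e, mem_level, fibre_fb h0 h1, h2]
  exact ⟨fb_one_infinite j, fb_one_countable j⟩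

/-- For `0 < ρ < 1/4` the series with the positive terms `ρ^k` and `ρ^k - ρ^(k+1)`, `k ≥ 0`,
converges, its level set `L_ω` is infinite (it contains all `ρ^j`) and countable; so `L_ω` is neither
empty nor does it contain a Cantor set. -/
theorem result (ρ : ℝ) (h0 : 0 < ρ) (h1 : ρ < 1 / 4) :
    (∀ n, 0 < ser ρ n) ∧ Summable (ser ρ) ∧
      (∀ j : ℕ, ρ ^ j ∈ levelSet (ser ρ) Cardinal.aleph0) ∧
      (levelSet (ser ρ) Cardinal.aleph0).Countable ∧
      ¬ ∃ C ⊆ levelSet (ser ρ) Cardinal.aleph0, Nonempty (C ≃ₜ cantorSet) := by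
  refine ⟨ser_pos h0 (by linarith), ser_summable h0 (by linarith), pow_mem h0 h1,
    level_countable h0 h1, ?_⟩
  rintro ⟨C, hC, ⟨e⟩⟩
  have i1 : Countable C := ((level_countable h0 h1).mono hC).to_subtype
  have i2 : Countable (ℕ → Bool) :=
    (e.trans cantorSetHomeomorphNatToBool).symm.injective.countable
  have h3 := Cardinal.mk_le_aleph0_iff.2 i2
  rw [Cardinal.mk_arrow] at h3
  simp only [Cardinal.lift_uzero, Cardinal.mk_bool, Cardinal.mk_nat] at h3
  exact absurd h3 (not_le.2 (Cardinal.cantor _))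

end Pool.Agent.Results.MP_c42e77_an.CountableOmegaLevel
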